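import Pool.Agent.N631.FV.Frozen
import Pool.Agent.H630VC.Avg4

/-!
# Randomised programs with tests: the random walk of marked sets (helper631)
-/

open scoped Classical
open Finset

namespace Pool.Agent.N631.FV

open H630VC
open Pool.Agent.N631.FT

variable {V : Type} [Fintype V]

/-- one step of the walk, for one program -/
theorem step_avg_t [Nonempty V] (L m Q S : ℕ) (hL : 1 ≤ L) (hm1 : 1 ≤ m) (hQ : 1 ≤ Q)
    {F : SimpleGraph V → Bool} {lf : SimpleGraph V → ℕ}
    (hlf : ∀ x x' : SimpleGraph V, x ≤ x' → lf x ≤ lf x' ∧ (lf x' = lf x → F x' = F x))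
    (T : Finset V)
    (hD : ∃ (l' : List (SimpleGraph V → ℝ)) (D : SimpleGraph V → ℝ),
      Prog (graphInputs V) l' ∧ D ∈ l' ∧ l'.length ≤ S ∧
        ∀ x, touchGraph T ≤ x → (1 ≤ D x ↔ lf x ≠ lf (touchGraph T)))
    (hS1 : 8 * S ≤ 2 ^ L) (hS2 : 16 * S * Fintype.card V ^ (4 * L) ≤ 2 ^ m) :
    avg (fun β : V → Fin (cols L Q) => ind (F (touchGraph T ⊔ classGraph β) = true)) ≤
      avg (fun ω : Om V m Q => 3 / 16 + (ind (lf (touchGraph (T ∪ marked ω)) ≠ lf (touchGraph T)) +
        ind (F (touchGraph (T ∪ marked ω)) = true))) := by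
  have hneO := nonempty_om (V := V) m Q hQ
  obtain ⟨l', D, g1, g2, g3, g4⟩ := hD
  have g1' : Prog (graphInputs V) (l'.map fun f H => f (touchGraph T ⊔ H)) :=
    Prog.comap (fun H => touchGraph T ⊔ H) (union_inputs T) g1
  have g2' : (fun H => D (touchGraph T ⊔ H)) ∈ l'.map fun f H => f (touchGraph T ⊔ H) :=
    List.mem_map.2 ⟨D, g2, rfl⟩
  have hlen : (l'.map fun (f : SimpleGraph V → ℝ) H => f (touchGraph T ⊔ H)).length ≤ S := by
    rw [List.length_map]
    exact g3
  have hcore := core_avg L m Q hL hm1 hQ g1' g2' 1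
    ((Nat.mul_le_mul_left 8 hlen).trans hS1)
    ((Nat.mul_le_mul_right _ (Nat.mul_le_mul_left 16 hlen)).trans hS2)
  have hcols : 0 < cols L Q := by unfold cols; positivity
  have hneB : Nonempty (V → Fin (cols L Q)) := ⟨fun _ => ⟨0, hcols⟩⟩
  rcases hcore with h | h
  · -- few positive tests
    have h1 : avg (fun β : V → Fin (cols L Q) => ind (F (touchGraph T ⊔ classGraph β) = true)) ≤
        1 / 8 + ind (F (touchGraph T) = true) := by
      calc _ ≤ avg (fun β : V → Fin (cols L Q) =>
            ind (1 ≤ D (touchGraph T ⊔ classGraph β)) + ind (F (touchGraph T) = true)) := by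
            apply avg_mono
            intro β
            by_cases hβ : 1 ≤ D (touchGraph T ⊔ classGraph β)
            · have e1 : ind (1 ≤ D (touchGraph T ⊔ classGraph β)) = 1 := if_pos hβ
              have e2 := ind_le_one (F (touchGraph T ⊔ classGraph β) = true)
              have e3 := ind_nonneg (F (touchGraph T) = true)
              linarith
            · have e0 : lf (touchGraph T ⊔ classGraph β) = lf (touchGraph T) := by
                by_contra hcon
                exact hβ ((g4 _ le_sup_left).2 hcon)
              have e1 := (hlf _ _ (le_sup_left : touchGraph T ≤ touchGraph T ⊔ classGraph β)).2 e0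
              rw [e1]
              have e2 := ind_nonneg (1 ≤ D (touchGraph T ⊔ classGraph β))
              linarith
        _ ≤ 1 / 8 + ind (F (touchGraph T) = true) := by
            rw [avg_add, avg_const, avg_ind]
            have hc : Fintype.card (V → Fin (cols L Q)) = cols L Q ^ Fintype.card V := by simp
            rw [hc]
            have h2 : (0 : ℝ) < ((cols L Q ^ Fintype.card V : ℕ) : ℝ) := by
              exact_mod_cast (by positivity : 0 < cols L Q ^ Fintype.card V)
            have h3 : (((univ.filter fun β : V → Fin (cols L Q) =>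
                1 ≤ D (touchGraph T ⊔ classGraph β)).card * 8 : ℕ) : ℝ) ≤
                ((cols L Q ^ Fintype.card V : ℕ) : ℝ) := by exact_mod_cast h
            have h4 : ((univ.filter fun β : V → Fin (cols L Q) =>
                1 ≤ D (touchGraph T ⊔ classGraph β)).card : ℝ) /
                ((cols L Q ^ Fintype.card V : ℕ) : ℝ) ≤ 1 / 8 := by
              rw [div_le_iff₀ h2]
              push_cast at h3 ⊢
              linarith
            linarith
    have h2 : (3 / 16 : ℝ) + ind (F (touchGraph T) = true) ≤ avg (fun ω : Om V m Q => 3 / 16 +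
        (ind (lf (touchGraph (T ∪ marked ω)) ≠ lf (touchGraph T)) +
        ind (F (touchGraph (T ∪ marked ω)) = true))) := by
      calc (3 / 16 : ℝ) + ind (F (touchGraph T) = true) =
            avg (fun _ : Om V m Q => (3 / 16 : ℝ) + ind (F (touchGraph T) = true)) :=
            (avg_const _).symm
        _ ≤ _ := by
          apply avg_mono
          intro ω
          have h3 := ind_nonneg (lf (touchGraph (T ∪ marked ω)) ≠ lf (touchGraph T))
          have h4 := ind_nonneg (F (touchGraph (T ∪ marked ω)) = true)
          by_cases hω : lf (touchGraph (T ∪ marked ω)) = lf (touchGraph T)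
          · have e1 := (hlf _ _ (touch_mono (subset_union_left : T ⊆ T ∪ marked ω))).2 hω
            rw [e1]
            linarith
          · have e1 : ind (lf (touchGraph (T ∪ marked ω)) ≠ lf (touchGraph T)) = 1 := if_pos hω
            have e2 := ind_le_one (F (touchGraph T) = true)
            linarith
    linarith
  · -- almost all negative tests
    have h1 : avg (fun β : V → Fin (cols L Q) =>
        ind (F (touchGraph T ⊔ classGraph β) = true)) ≤ 1 := by
      calc _ ≤ avg (fun _ : V → Fin (cols L Q) => (1 : ℝ)) := avg_mono fun _ => ind_le_one _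
        _ = 1 := avg_const _
    have h2 : avg (fun ω : Om V m Q => ind (¬ 1 ≤ D (touchGraph T ⊔ touchGraph (marked ω))))
        ≤ 1 / 16 := by
      rw [avg_ind]
      have h2 : (0 : ℝ) < Fintype.card (Om V m Q) := by exact_mod_cast Fintype.card_pos
      rw [div_le_iff₀ h2]
      have h3 : (((univ.filter fun ω : Om V m Q =>
        ¬ 1 ≤ D (touchGraph T ⊔ touchGraph (marked ω))).card * 16 : ℕ) : ℝ) ≤
          (Fintype.card (Om V m Q) : ℝ) := by
        exact_mod_cast h
      push_cast at h3
      linarith
    have h3 : (1 : ℝ) ≤ avg (fun ω : Om V m Q =>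
        (ind (lf (touchGraph (T ∪ marked ω)) ≠ lf (touchGraph T)) +
        ind (F (touchGraph (T ∪ marked ω)) = true)) +
          ind (¬ 1 ≤ D (touchGraph T ⊔ touchGraph (marked ω)))) := by
      calc (1 : ℝ) = avg (fun _ : Om V m Q => (1 : ℝ)) := (avg_const _).symm
        _ ≤ _ := by
          apply avg_mono
          intro ω
          have e := g4 (touchGraph T ⊔ touchGraph (marked ω)) le_sup_left
          rw [touch_union] at e
          have n1 := ind_nonneg (lf (touchGraph (T ∪ marked ω)) ≠ lf (touchGraph T))
          have n2 := ind_nonneg (F (touchGraph (T ∪ marked ω)) = true)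
          have n3 := ind_nonneg (¬ 1 ≤ D (touchGraph T ⊔ touchGraph (marked ω)))
          by_cases hθ : 1 ≤ D (touchGraph T ⊔ touchGraph (marked ω))
          · rw [touch_union] at hθ
            have e1 : ind (lf (touchGraph (T ∪ marked ω)) ≠ lf (touchGraph T)) = 1 :=
              if_pos (e.1 hθ)
            linarith
          · have e1 : ind (¬ 1 ≤ D (touchGraph T ⊔ touchGraph (marked ω))) = 1 := if_pos hθ
            linarith
    rw [avg_add] at h3
    rw [avg_add, avg_const]
    linarith

/-- the random walk argument: small randomised programs cannot tell the test graphs apart -/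
theorem engine_t [Nonempty V] (L m Q t P S : ℕ) (hL : 1 ≤ L) (hm1 : 1 ≤ m) (hQ : 1 ≤ Q)
    (hP : 1 ≤ P) {R : Type} [Fintype R] [Nonempty R] (s μ : R → ℕ)
    (F : R → SimpleGraph V → Bool)
    (hp : ∀ r, TProg (graphInputs V) [] (s r) (μ r) (F r))
    (hcomb : ∀ r, μ r ≤ P) (hsize : ∀ r, s r + μ r ≤ S)
    (hS1 : 8 * S ≤ 2 ^ L) (hS2 : 16 * S * Fintype.card V ^ (4 * L) ≤ 2 ^ m)
    (ht : 64 * P * (Fintype.card V * m) ≤ t * Q)
    (hyes : ∀ G : SimpleGraph V, (∃ β : V → Fin (cols L Q), classGraph β ≤ G) →
      3 * Fintype.card R ≤ 4 * (univ.filter fun r => F r G = true).card)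
    (hno : ∀ T : Finset V, T.card ≤ t →
      4 * (univ.filter fun r => F r (touchGraph T) = true).card ≤ Fintype.card R) : False := by
  have hcols : 0 < cols L Q := by unfold cols; positivity
  have hneB : Nonempty (V → Fin (cols L Q)) := ⟨fun _ => ⟨0, hcols⟩⟩
  have hn : 1 ≤ Fintype.card V := Fintype.card_pos
  have ht1 : 1 ≤ t := by
    by_contra h0
    have h0' : t = 0 := by omega
    rw [h0', zero_mul] at ht
    have : 0 < 64 * P * (Fintype.card V * m) := by positivity
    omega
  have hR : (0 : ℝ) < Fintype.card R := by exact_mod_cast Fintype.card_pos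
  set k := 4 * P with hk
  have hkR : (0 : ℝ) < k := by rw [hk]; push_cast; positivity
  -- the phases
  choose lf hlt hmono hfro using fun r =>
    frozen (inp := graphInputs V) (fun c => Or.inr ⟨c, rfl⟩) (hp r) Prog.nil
  have hmono' : ∀ r (x x' : SimpleGraph V), x ≤ x' →
      lf r x ≤ lf r x' ∧ (lf r x' = lf r x → F r x' = F r x) := by
    intro r x x' hxx
    exact hmono r x x' (fun g hg => graphInputs_mono g hg hxx)
  -- the positive side
  have h1 : (3 / 4 : ℝ) * Fintype.card R * k ≤ ∑ r, walk m Q (fun T _ : Finset V =>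
      avg fun β : V → Fin (cols L Q) => ind (F r (touchGraph T ⊔ classGraph β) = true)) k ∅ := by
    rw [← walk_sum]
    calc (3 / 4 : ℝ) * Fintype.card R * k = k * (3 / 4 * Fintype.card R) := by ring
      _ = walk m Q (fun _ _ : Finset V => (3 / 4 * Fintype.card R : ℝ)) k ∅ :=
          (walk_const m Q hQ _ k ∅).symm
      _ ≤ _ := by
        have hneO := nonempty_om (V := V) m Q hQ
        apply walk_mono
        intro T
        apply avg_mono
        intro ω
        rw [← avg_sum]
        calc (3 / 4 * Fintype.card R : ℝ)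
            = avg (fun _ : V → Fin (cols L Q) => (3 / 4 * Fintype.card R : ℝ)) :=
              (avg_const _).symm
          _ ≤ _ := by
            apply avg_mono
            intro β
            have h2 := hyes (touchGraph T ⊔ classGraph β) ⟨β, le_sup_right⟩
            have h3 : ((univ.filter fun r => F r (touchGraph T ⊔ classGraph β) = true).card : ℝ) =
                ∑ r, ind (F r (touchGraph T ⊔ classGraph β) = true) := card_ind _ _
            rw [← h3]
            have h4 : ((3 * Fintype.card R : ℕ) : ℝ) ≤
              ((4 * (univ.filter fun r =>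
                F r (touchGraph T ⊔ classGraph β) = true).card : ℕ) : ℝ) := by
              exact_mod_cast h2
            push_cast at h4
            linarith
  -- one program
  have h2 : ∀ r, walk m Q (fun T _ : Finset V =>
      avg fun β : V → Fin (cols L Q) => ind (F r (touchGraph T ⊔ classGraph β) = true)) k ∅ ≤
      k * (3 / 16) + (walk m Q (fun T T' : Finset V =>
        ind (lf r (touchGraph T') ≠ lf r (touchGraph T))) k ∅ +
        walk m Q (fun _ T' : Finset V => ind (F r (touchGraph T') = true)) k ∅) := by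
    intro r
    have hneO := nonempty_om (V := V) m Q hQ
    rw [← walk_const (V := V) m Q hQ (3 / 16) k ∅, ← walk_add, ← walk_add]
    apply walk_mono
    intro T
    rw [avg_const]
    refine step_avg_t L m Q S hL hm1 hQ (hmono' r) T ?_ hS1 hS2
    obtain ⟨l', D, g1, g2, -, g4, g5⟩ := hfro r (touchGraph T)
    refine ⟨l', D, g1, g2, ?_, fun x hx => g5 x (fun g hg => graphInputs_mono g hg hx)⟩
    have := hsize r
    rw [List.length_nil] at g4
    omega
  -- the flips
  have h3 : ∀ r, walk m Q (fun T T' : Finset V =>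
        ind (lf r (touchGraph T') ≠ lf r (touchGraph T))) k ∅ ≤ (P : ℝ) - 1 := by
    intro r
    have hlt' : ∀ T : Finset V, (lf r (touchGraph T) : ℝ) ≤ (P : ℝ) - 1 := by
      intro T
      have := lt_of_lt_of_le (hlt r (touchGraph T)) (hcomb r)
      have h' : lf r (touchGraph T) + 1 ≤ P := this
      have : ((lf r (touchGraph T) + 1 : ℕ) : ℝ) ≤ (P : ℝ) := by exact_mod_cast h'
      push_cast at this
      linarith
    have := walk_rank m Q hQ (fun T T' : Finset V =>
        ind (lf r (touchGraph T') ≠ lf r (touchGraph T)))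
      (fun T => (lf r (touchGraph T) : ℝ)) ((P : ℝ) - 1)
      (by
        intro T T' hTT
        obtain ⟨e1, e2⟩ := hmono' r (touchGraph T) (touchGraph T') (touch_mono hTT)
        rcases lt_or_eq_of_le e1 with hlt' | heq
        · have h5 : ((lf r (touchGraph T) + 1 : ℕ) : ℝ) ≤
              (lf r (touchGraph T') : ℝ) := by exact_mod_cast hlt'
          push_cast at h5
          have := ind_le_one (lf r (touchGraph T') ≠ lf r (touchGraph T))
          linarith
        · have h5 : ind (lf r (touchGraph T') ≠ lf r (touchGraph T)) = 0 :=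
            if_neg (not_not.2 heq.symm)
          rw [h5, heq]
          simp) hlt' k ∅
    have h0 : (0 : ℝ) ≤ (lf r (touchGraph (∅ : Finset V)) : ℝ) := Nat.cast_nonneg _
    linarith
  -- the negative side
  have h4 : ∑ r, walk m Q (fun _ T' : Finset V => ind (F r (touchGraph T') = true)) k ∅ ≤
      k * (Fintype.card R / 4) + Fintype.card R / t * (k * k * (Fintype.card V * m / Q)) := by
    rw [← walk_sum]
    have ht' : (0 : ℝ) < t := by exact_mod_cast ht1
    calc _ ≤ walk m Q (fun _ T' : Finset V => (Fintype.card R / 4 : ℝ) +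
          Fintype.card R / t * (T'.card : ℝ)) k ∅ := by
          apply walk_mono
          intro T
          apply avg_mono
          intro ω
          have h5 : ((univ.filter fun r => F r (touchGraph (T ∪ marked ω)) = true).card : ℝ) =
              ∑ r, ind (F r (touchGraph (T ∪ marked ω)) = true) := card_ind _ _
          rw [← h5]
          by_cases hT : (T ∪ marked ω).card ≤ t
          · have h6 := hno _ hT
            have h7 : ((4 * (univ.filter fun r =>
                F r (touchGraph (T ∪ marked ω)) = true).card : ℕ) : ℝ)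
              ≤ (Fintype.card R : ℝ) := by exact_mod_cast h6
            push_cast at h7
            have h8 : (0 : ℝ) ≤ Fintype.card R / t * ((T ∪ marked ω).card : ℝ) := by positivity
            linarith
          · rw [not_le] at hT
            have h6 : ((univ.filter fun r => F r (touchGraph (T ∪ marked ω)) = true).card : ℝ) ≤
                Fintype.card R := by
              exact_mod_cast card_le_univ _
            have h7 : (t : ℝ) ≤ ((T ∪ marked ω).card : ℝ) := by exact_mod_cast hT.le
            have h8 : (Fintype.card R : ℝ) ≤ Fintype.card R / t * ((T ∪ marked ω).card : ℝ) := by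
              rw [div_mul_eq_mul_div, le_div_iff₀ ht']
              exact mul_le_mul_of_nonneg_left h7 hR.le
            have h9 : (0 : ℝ) ≤ Fintype.card R / 4 := by positivity
            linarith
      _ = k * (Fintype.card R / 4) + Fintype.card R / t *
          walk m Q (fun _ T' : Finset V => (T'.card : ℝ)) k ∅ := by
          rw [walk_add, walk_const m Q hQ, walk_mul]
      _ ≤ _ := by
          have h6 := walk_card m Q hQ k (∅ : Finset V)
          rw [card_empty] at h6
          have h7 : (0 : ℝ) ≤ Fintype.card R / t := by positivity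
          have h8 : walk m Q (fun _ T' : Finset V => (T'.card : ℝ)) k ∅ ≤
              k * k * (Fintype.card V * m / Q) := by
            simpa using h6
          have := mul_le_mul_of_nonneg_left h8 h7
          linarith
  have h5 : (3 / 4 : ℝ) * Fintype.card R * k ≤ Fintype.card R * (k * (3 / 16)) +
      Fintype.card R * ((P : ℝ) - 1) + (k * (Fintype.card R / 4) +
        Fintype.card R / t * (k * k * (Fintype.card V * m / Q))) := by
    calc _ ≤ _ := h1
      _ ≤ ∑ r, (k * (3 / 16) + (((P : ℝ) - 1) +
        walk m Q (fun _ T' : Finset V => ind (F r (touchGraph T') = true)) k ∅)) := by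
          apply sum_le_sum
          intro r _
          have := h2 r
          have := h3 r
          linarith
      _ = Fintype.card R * (k * (3 / 16)) + Fintype.card R * ((P : ℝ) - 1) +
          ∑ r, walk m Q (fun _ T' : Finset V => ind (F r (touchGraph T') = true)) k ∅ := by
          rw [sum_add_distrib, sum_add_distrib, sum_const, sum_const, card_univ, nsmul_eq_mul,
            nsmul_eq_mul]
          ring
      _ ≤ _ := by linarith
  have h6 : (k : ℝ) * (Fintype.card V * m / Q) / t ≤ 1 / 16 := by
    have hQ' : (0 : ℝ) < Q := by exact_mod_cast hQ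
    have ht' : (0 : ℝ) < t := by exact_mod_cast ht1
    have h7 : ((64 * P * (Fintype.card V * m) : ℕ) : ℝ) ≤ ((t * Q : ℕ) : ℝ) := by
      exact_mod_cast ht
    push_cast at h7
    rw [div_le_iff₀ ht', ← mul_div_assoc, div_le_iff₀ hQ', hk]
    push_cast
    linarith
  have h7 : Fintype.card R / t * (k * k * (Fintype.card V * m / Q)) ≤
      (Fintype.card R : ℝ) * (k * (1 / 16)) := by
    have e : (Fintype.card R : ℝ) / t * (k * k * (Fintype.card V * m / Q)) =
        Fintype.card R * (k * (k * (Fintype.card V * m / Q) / t)) := by ring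
    rw [e]
    gcongr
  have hkP : (k : ℝ) = 4 * P := by rw [hk]; push_cast; ring
  have h8 : (Fintype.card R : ℝ) * (3 / 4 * k) ≤ Fintype.card R * (3 / 4 * k - 1) := by
    have e1 : (Fintype.card R : ℝ) * (3 / 4 * k) = 3 / 4 * Fintype.card R * k := by ring
    have e2 : (Fintype.card R : ℝ) * (3 / 4 * k - 1) = Fintype.card R * (k * (3 / 16)) +
      Fintype.card R * ((P : ℝ) - 1) + (k * (Fintype.card R / 4) +
        (Fintype.card R : ℝ) * (k * (1 / 16))) := by
      rw [hkP]; ring
    rw [e1, e2]
    linarith
  have h9 := le_of_mul_le_mul_left h8 hR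
  linarith

/-- the engine with explicit parameters -/
theorem engine2_t (n L P : ℕ) (σ τ : ℝ) (hL : 1 ≤ L) (hP : 1 ≤ P) (hσ : 1 ≤ σ) (hτ : 1 ≤ τ)
    (h : 16 * 10 ^ 5 * (σ * τ) * L ^ 3 * (Nat.log 2 n + 1) * P ≤ Real.sqrt n)
    {R : Type} [Fintype R] [Nonempty R] (s μ : R → ℕ)
    (F : R → SimpleGraph (Fin n) → Bool)
    (hp : ∀ r, TProg (graphInputs (Fin n)) [] (s r) (μ r) (F r))
    (hcomb : ∀ r, μ r ≤ P)
    (hsize : ∀ r, 8 * (s r + μ r) ≤ 2 ^ L)
    (hyes : ∀ (G : SimpleGraph (Fin n)) (A : ℕ) (β : Fin n → Fin A), (A : ℝ) ≤ n / (8 * σ) →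
      classGraph β ≤ G → 3 * Fintype.card R ≤ 4 * (univ.filter fun r => F r G = true).card)
    (hno : ∀ T : Finset (Fin n), (T.card : ℝ) ≤ n / (4 * τ) →
      4 * (univ.filter fun r => F r (touchGraph T) = true).card ≤ Fintype.card R) : False := by
  have h16 : 1 ≤ 16 * P := by omega
  obtain ⟨a, t, ha, h1, h2, h3, h4, hn2, h5, h6⟩ := params2 n L (16 * P) σ τ hL h16 hσ hτ
    (by
      refine le_trans (le_of_eq ?_) h
      push_cast
      ring)
  have : Nonempty (Fin n) := ⟨⟨0, by omega⟩⟩
  set lam := Nat.log 2 n + 1 with hlam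
  have hnlam : n ≤ 2 ^ lam := (Nat.lt_pow_succ_log_self (by norm_num) n).le
  have hlam1 : 1 ≤ lam := by omega
  set m := 7 * L * lam with hmdef
  have hm1 : 1 ≤ m := Nat.one_le_iff_ne_zero.2 (by positivity)
  set Q := a * m with hQdef
  have hQ : 1 ≤ Q := Nat.one_le_iff_ne_zero.2 (by positivity)
  have hcols : cols L Q ≤ 451584 * a ^ 2 * L ^ 6 * lam ^ 2 := by
    unfold cols
    have e1 : 4 * (4 * (2 * L) * (2 * L + 1) * Q) ≤ 96 * L ^ 2 * Q := by
      have : 4 * (4 * (2 * L) * (2 * L + 1) * Q) = (64 * L ^ 2 + 32 * L) * Q := by ring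
      rw [this]
      apply Nat.mul_le_mul_right
      nlinarith
    calc (4 * (4 * (2 * L) * (2 * L + 1) * Q)) ^ 2 ≤ (96 * L ^ 2 * Q) ^ 2 :=
          Nat.pow_le_pow_left e1 2
      _ = 451584 * a ^ 2 * L ^ 6 * lam ^ 2 := by
          rw [hQdef, hmdef]; ring
  refine engine_t L m Q (16 * P * t) P (2 ^ L / 8) hL hm1 hQ hP s μ F hp hcomb ?_ ?_ ?_ ?_ ?_ ?_
  · intro r
    rw [Nat.le_div_iff_mul_le (by norm_num)]
    have := hsize r
    omega
  · exact Nat.mul_div_le _ _
  · rw [Fintype.card_fin]
    have e0 : 16 * (2 ^ L / 8) ≤ 2 * 2 ^ L := by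
      have := Nat.mul_div_le (2 ^ L) 8
      omega
    have e1 : n ^ (4 * L) ≤ 2 ^ (4 * L * lam) := by
      calc n ^ (4 * L) ≤ (2 ^ lam) ^ (4 * L) := Nat.pow_le_pow_left hnlam _
        _ = 2 ^ (4 * L * lam) := by rw [← pow_mul]; ring_nf
    calc 16 * (2 ^ L / 8) * n ^ (4 * L) ≤ (2 * 2 ^ L) * 2 ^ (4 * L * lam) :=
          Nat.mul_le_mul e0 e1
      _ = 2 ^ (1 + L + 4 * L * lam) := by
          rw [pow_add, pow_add]; ring
      _ ≤ 2 ^ m := by
          apply Nat.pow_le_pow_right (by norm_num)
          rw [hmdef]
          nlinarith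
  · rw [Fintype.card_fin]
    calc 64 * P * (n * m) = 16 * P * (4 * n) * m := by ring
      _ ≤ 16 * P * (t * a) * m := by gcongr
      _ = 16 * P * t * Q := by rw [hQdef]; ring
  · rintro G ⟨β, hβ⟩
    refine hyes G _ β (le_trans ?_ h6) hβ
    exact_mod_cast hcols
  · intro T hT
    refine hno T (le_trans ?_ h5)
    exact_mod_cast hT

end Pool.Agent.N631.FV
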