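import Pool.Agent.N631.FV.Engine
import Pool.Agent.N631.FT.Two

/-!
# Randomised programs with tests for vertex cover on graphs with a perfect matching (helper631)
-/

open scoped Classical
open Finset

namespace Pool.Agent.N631.FV

open H630VC
open Pool.Agent.N631.FT

theorem log_le_rpow2 {n : ℕ} (hn : 2 ≤ n) {x : ℝ} (h : 2 * ((Nat.log 2 n : ℝ) + 1) ^ 2 ≤ x) :
    ((4 * n + 4 : ℕ) : ℝ) ≤ (2 : ℝ) ^ x := by
  have h0 : 1 ≤ Nat.log 2 n := Nat.log_pos (by norm_num) hn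
  have h1 : 4 * n + 4 ≤ 2 ^ (Nat.log 2 n + 4) := by
    have := Nat.lt_pow_succ_log_self (b := 2) (by norm_num) n
    rw [pow_succ] at this
    rw [pow_add]
    omega
  have h2 : ((4 * n + 4 : ℕ) : ℝ) ≤ ((2 ^ (Nat.log 2 n + 4) : ℕ) : ℝ) := by exact_mod_cast h1
  refine h2.trans ?_
  push_cast
  rw [← Real.rpow_natCast]
  apply Real.rpow_le_rpow_of_exponent_le (by norm_num)
  push_cast
  have : (1 : ℝ) ≤ (Nat.log 2 n : ℝ) := by exact_mod_cast h0
  nlinarith

/-- the asymptotic choice of the parameter `L` -/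
theorem asymp_params2 (K α δ δ' : ℝ) (hK : 0 ≤ K) (hδ : 0 < δ) (hδ' : 0 < δ')
    (hsum : α + 3 * δ + δ' ≤ 1 / 2) :
    ∃ N : ℕ, ∀ n : ℕ, N ≤ n → 2 ≤ n ∧ ∃ L : ℕ, 1 ≤ L ∧
      (∀ Y : ℝ, 0 ≤ Y → Y ≤ (n : ℝ) ^ α →
        K * L ^ 3 * ((Nat.log 2 n : ℝ) + 1) * Y ≤ Real.sqrt n) ∧
      (∀ s : ℕ, (s : ℝ) < (2 : ℝ) ^ ((n : ℝ) ^ δ) → 8 * (s + (4 * n + 4)) ≤ 2 ^ L) := by
  obtain ⟨N1, hN1⟩ := eventually_log (216 * K) δ' hδ'
  obtain ⟨N2, hN2⟩ := eventually_log 2 δ hδ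
  refine ⟨max (max N1 N2) 2, fun n hn => ?_⟩
  have hn2 : 2 ≤ n := (le_max_right _ _).trans hn
  have hn1 : 1 ≤ n := by omega
  have hn0 : (1 : ℝ) ≤ n := by exact_mod_cast hn1
  have hnpos : (0 : ℝ) < n := by linarith
  have g1 := hN1 n (((le_max_left _ _).trans (le_max_left _ _)).trans hn)
  have g2 := hN2 n (((le_max_right _ _).trans (le_max_left _ _)).trans hn)
  set x : ℝ := (n : ℝ) ^ δ with hx
  have hx1 : 1 ≤ x := Real.one_le_rpow hn0 (by positivity)
  have hLx : x + 4 ≤ ((⌈x⌉₊ + 4 : ℕ) : ℝ) := by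
    push_cast
    linarith [Nat.le_ceil x]
  have hLx' : ((⌈x⌉₊ + 4 : ℕ) : ℝ) ≤ 6 * x := by
    push_cast
    have := (Nat.ceil_lt_add_one (show (0 : ℝ) ≤ x by linarith)).le
    linarith
  have hlam0 : (1 : ℝ) ≤ (Nat.log 2 n : ℝ) + 1 := by
    have : (0 : ℝ) ≤ (Nat.log 2 n : ℝ) := by positivity
    linarith
  refine ⟨hn2, ⌈x⌉₊ + 4, by omega, ?_, ?_⟩
  · intro Y hY0 hY
    have e2 : ((⌈x⌉₊ + 4 : ℕ) : ℝ) ^ 3 ≤ 216 * (n : ℝ) ^ (3 * δ) := by
      calc ((⌈x⌉₊ + 4 : ℕ) : ℝ) ^ 3 ≤ (6 * x) ^ 3 := pow_le_pow_left₀ (by positivity) hLx' 3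
        _ = 216 * x ^ 3 := by ring
        _ = _ := by
            rw [hx, ← Real.rpow_natCast, ← Real.rpow_mul (by positivity)]
            congr 2; push_cast; ring
    have e3 : 216 * K * ((Nat.log 2 n : ℝ) + 1) ≤ (n : ℝ) ^ δ' := by
      refine le_trans ?_ g1
      have : (Nat.log 2 n : ℝ) + 1 ≤ ((Nat.log 2 n : ℝ) + 1) ^ 2 := by nlinarith
      gcongr
    calc K * ((⌈x⌉₊ + 4 : ℕ) : ℝ) ^ 3 * ((Nat.log 2 n : ℝ) + 1) * Y
        ≤ K * (216 * (n : ℝ) ^ (3 * δ)) * ((Nat.log 2 n : ℝ) + 1) * (n : ℝ) ^ α := by gcongr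
      _ = (n : ℝ) ^ α * (n : ℝ) ^ (3 * δ) * (216 * K * ((Nat.log 2 n : ℝ) + 1)) := by ring
      _ ≤ (n : ℝ) ^ α * (n : ℝ) ^ (3 * δ) * (n : ℝ) ^ δ' := by gcongr
      _ = (n : ℝ) ^ (α + 3 * δ + δ') := by
          rw [Real.rpow_add hnpos, Real.rpow_add hnpos]
      _ ≤ (n : ℝ) ^ (1 / 2 : ℝ) := Real.rpow_le_rpow_of_exponent_le hn0 hsum
      _ = Real.sqrt n := (Real.sqrt_eq_rpow _).symm
  · intro s hs
    have h3 := log_le_rpow2 hn2 g2
    have h4 : (2 : ℝ) ^ (x + 4) ≤ (2 : ℝ) ^ ((⌈x⌉₊ + 4 : ℕ) : ℝ) :=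
      Real.rpow_le_rpow_of_exponent_le (by norm_num) hLx
    rw [Real.rpow_add (by norm_num), Real.rpow_natCast] at h4
    have h4' : (2 : ℝ) ^ x * 16 ≤ (2 : ℝ) ^ (⌈x⌉₊ + 4) := by
      calc (2 : ℝ) ^ x * 16 = (2 : ℝ) ^ x * (2 : ℝ) ^ (4 : ℝ) := by norm_num
        _ ≤ _ := h4
    have h5 : ((8 * (s + (4 * n + 4)) : ℕ) : ℝ) ≤ ((2 ^ (⌈x⌉₊ + 4) : ℕ) : ℝ) := by
      push_cast
      push_cast at h3
      linarith
    exact_mod_cast h5

/-- programs of small width that approximately decide the vertex cover number, with room for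
further `3 n + 1` steps -/
theorem programs_slack (η : ℝ) (hη : 0 < η) (α : ℝ) (hα : 0 ≤ α) (hα2 : α < 1 / 2) :
    ∃ N : ℕ, ∀ n : ℕ, N ≤ n → ∀ (R : Type) [Fintype R] [Nonempty R] (S m : R → ℕ)
      (F : R → WGraph (Fin n ⊕ Fin n) → Bool),
      (∀ r, TProg (wInputs (Fin n ⊕ Fin n)) [] (S r) (m r) (F r)) →
      (∀ r, (m r : ℝ) ≤ (n : ℝ) ^ α) →
      (∀ G ∈ pmGraphs n, (∀ C : Finset (Fin n ⊕ Fin n), IsCover G C →
        (2 - η) * n ≤ (C.card : ℝ)) →
        3 * Fintype.card R ≤ 4 * (univ.filter fun r => F r (unit G) = true).card) →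
      (∀ G ∈ pmGraphs n, (∃ C : Finset (Fin n ⊕ Fin n), IsCover G C ∧
        (C.card : ℝ) ≤ (1 + η) * n) →
        3 * Fintype.card R ≤ 4 * (univ.filter fun r => F r (unit G) = false).card) →
      ∃ r, (2 : ℝ) ^ ((n : ℝ) ^ ((1 - 2 * α) / 7)) + (2 * n + 1) ≤ S r := by
  set ε : ℝ := min 1 η with hε
  have hε0 : 0 < ε := lt_min one_pos hη
  have hε1 : ε ≤ 1 := min_le_left _ _
  have hεη : ε ≤ η := min_le_right _ _
  obtain ⟨N, hN⟩ := asymp_params2 (16 * 10 ^ 5 * (2 / ε * (2 / ε))) α ((1 - 2 * α) / 7)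
    ((1 - 2 * α) / 14) (by positivity) (by linarith) (by linarith) (by linarith)
  refine ⟨N, fun n hn R _ _ S m F hp hP hyes hno => ?_⟩
  obtain ⟨hn2, L, hL, hY, hsz⟩ := hN n hn
  by_contra hlt
  push Not at hlt
  set P : ℕ := max 1 ⌊(n : ℝ) ^ α⌋₊ with hPdef
  have hcomb : ∀ r, m r ≤ P := fun r => (Nat.le_floor (hP r)).trans (le_max_right _ _)
  have hn1 : (1 : ℝ) ≤ n := by
    have : 1 ≤ n := by omega
    exact_mod_cast this
  have hP1 : 1 ≤ P := le_max_left _ _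
  have hPle : (P : ℝ) ≤ (n : ℝ) ^ α := by
    rw [hPdef]
    push_cast
    refine max_le (Real.one_le_rpow hn1 hα) (Nat.floor_le (by positivity))
  have hn0 : (2 : ℝ) ≤ n := by exact_mod_cast hn2
  have hρ : (1 : ℝ) ≤ 2 / ε := by
    rw [le_div_iff₀ hε0]; linarith
  have hmn : ∀ r, m r ≤ n := by
    intro r
    have h1 : (m r : ℝ) ≤ (n : ℝ) := by
      calc (m r : ℝ) ≤ (n : ℝ) ^ α := hP r
        _ ≤ (n : ℝ) ^ (1 : ℝ) := Real.rpow_le_rpow_of_exponent_le hn1 (by linarith)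
        _ = n := Real.rpow_one _
    exact_mod_cast h1
  refine engine2_t n L P (2 / ε) (2 / ε) hL hP1 hρ hρ ?_ S m
    (fun r H => F r (unit (joinGraph H)))
    (fun r => tprog_comp (fun H : SimpleGraph (Fin n) => unit (joinGraph H)) _ _ join_inputs
      (hp r)) hcomb ?_ ?_ ?_
  · calc 16 * 10 ^ 5 * (2 / ε * (2 / ε)) * (L : ℝ) ^ 3 * ((Nat.log 2 n : ℝ) + 1) * P
        = 16 * 10 ^ 5 * (2 / ε * (2 / ε)) * (L : ℝ) ^ 3 * ((Nat.log 2 n : ℝ) + 1) * (P : ℝ) := rfl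
      _ ≤ _ := hY _ (by positivity) hPle
  · intro r
    have h1 : ((S r - (2 * n + 1) : ℕ) : ℝ) < (2 : ℝ) ^ ((n : ℝ) ^ ((1 - 2 * α) / 7)) := by
      rcases le_total (2 * n + 1) (S r) with h | h
      · rw [Nat.cast_sub h]
        push_cast
        have := hlt r
        linarith
      · rw [Nat.sub_eq_zero_of_le h]
        push_cast
        positivity
    have h2 := hsz _ h1
    have h3 := hmn r
    omega
  · intro G A β hA hG
    refine hyes _ (joinGraph_mem G) ?_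
    intro C hC
    have hA1 : 1 ≤ A := by
      have := (β ⟨0, by omega⟩).pos
      omega
    have hCn := card_cover_joinGraph G A hA1 (fun C' hC' => by
      have := card_cover_classGraph β C' (fun u v huv => hC' u v (hG huv))
      rwa [Fintype.card_fin] at this) C hC
    have e1 : (2 * n : ℝ) ≤ C.card + (A : ℝ) := by exact_mod_cast hCn
    have e3 : (A : ℝ) ≤ ε * n / 16 := by
      calc (A : ℝ) ≤ n / (8 * (2 / ε)) := hA
        _ = ε * n / 16 := by field_simp; ring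
    have e5 : ε * n ≤ η * n := by gcongr
    have e6 : 0 < ε * n := by positivity
    linarith
  · intro T hT
    have e3 : (T.card : ℝ) ≤ ε * n / 8 := by
      calc (T.card : ℝ) ≤ n / (4 * (2 / ε)) := hT
        _ = ε * n / 8 := by field_simp; ring
    have e5 : ε * n ≤ η * n := by gcongr
    have e6 : 0 < ε * n := by positivity
    have h1 := hno _ (joinGraph_mem (touchGraph T))
      ⟨(univ : Finset (Fin n)).disjSum T, isCover_joinGraph _ T (isCover_touchGraph T), by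
        rw [card_disjSum, card_univ, Fintype.card_fin]
        push_cast
        linarith⟩
    exact quarter_of_three h1 (fun r hr => by rw [hr]; exact Bool.false_ne_true)

/-- programs of small width that approximately decide the vertex cover number -/
theorem programs (η : ℝ) (hη : 0 < η) (α : ℝ) (hα : 0 ≤ α) (hα2 : α < 1 / 2) :
    ∃ N : ℕ, ∀ n : ℕ, N ≤ n → ∀ (R : Type) [Fintype R] [Nonempty R] (S m : R → ℕ)
      (F : R → WGraph (Fin n ⊕ Fin n) → Bool),
      (∀ r, TProg (wInputs (Fin n ⊕ Fin n)) [] (S r) (m r) (F r)) →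
      (∀ r, (m r : ℝ) ≤ (n : ℝ) ^ α) →
      (∀ G ∈ pmGraphs n, (∀ C : Finset (Fin n ⊕ Fin n), IsCover G C →
        (2 - η) * n ≤ (C.card : ℝ)) →
        3 * Fintype.card R ≤ 4 * (univ.filter fun r => F r (unit G) = true).card) →
      (∀ G ∈ pmGraphs n, (∃ C : Finset (Fin n ⊕ Fin n), IsCover G C ∧
        (C.card : ℝ) ≤ (1 + η) * n) →
        3 * Fintype.card R ≤ 4 * (univ.filter fun r => F r (unit G) = false).card) →
      ∃ r, (2 : ℝ) ^ ((n : ℝ) ^ ((1 - 2 * α) / 7)) ≤ S r := by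
  obtain ⟨N, hN⟩ := programs_slack η hη α hα hα2
  refine ⟨N, fun n hn R _ _ S m F hp hP hyes hno => ?_⟩
  obtain ⟨r, hr⟩ := hN n hn R S m F hp hP hyes hno
  refine ⟨r, le_trans ?_ hr⟩
  have : (0 : ℝ) ≤ 2 * n + 1 := by positivity
  linarith

/-- adding the sum of the thresholded gates -/
theorem exists_sum_gate_n {I ι : Type} {inp : Set (I → ℝ)} (h0 : (fun _ => (0 : ℝ)) ∈ inp)
    {l : List (I → ℝ)} {κ : ℕ} (hp : NProg inp l κ) (c : ι → I → ℝ)
    (hc : ∀ v, c v ∈ l) (s : Finset ι) :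
    ∃ l' : List (I → ℝ), NProg inp l' κ ∧ l ⊆ l' ∧ l'.length = l.length + s.card + 1 ∧
      (fun x => ((s.filter fun v => 1 ≤ c v x).card : ℝ)) ∈ l' := by
  induction s using Finset.induction_on with
  | empty =>
    refine ⟨(fun _ => (0 : ℝ)) :: l, NProg.input hp h0, fun a ha => List.mem_cons_of_mem _ ha,
      by simp, ?_⟩
    simp
  | insert v s hv ih =>
    obtain ⟨l', h1, h2, h3, h4⟩ := ih
    let φ : ℝ → ℝ → ℝ := fun a b => a + if 1 ≤ b then 1 else 0
    have hφ : Mono2 φ := by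
      intro a a' b b' ha hb
      simp only [φ]
      split_ifs with g1 g2 g2
      · linarith
      · exact absurd (g1.trans hb) g2
      · linarith
      · linarith
    refine ⟨_ :: l', NProg.gate (φ := φ) h1 hφ h4 (h2 (hc v)),
      fun a ha => List.mem_cons_of_mem _ (h2 ha), ?_, ?_⟩
    · rw [List.length_cons, h3, card_insert_of_notMem hv]; ring
    · refine List.mem_cons.2 (Or.inl ?_)
      funext x
      simp only [φ]
      rw [filter_insert]
      split_ifs with g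
      · rw [card_insert_of_notMem (fun h => hv (mem_filter.1 h).1)]
        push_cast; ring
      · simp

/-- computing the size of the printed covers -/
theorem value_n {V : Type} [Fintype V] {R : Type} [Fintype R] {ρ : ℝ}
    {l : R → List (WGraph V → ℝ)} {κ : R → ℕ}
    (hp : ∀ r, NProg (wInputs V) (l r) (κ r)) {𝓖 : Set (SimpleGraph V)}
    (h : RSolves ρ l (unit '' 𝓖)) :
    ∃ l' : R → List (WGraph V → ℝ), (∀ r, NProg (wInputs V) (l' r) (κ r)) ∧
      (∀ r, (l' r).length ≤ (l r).length + Fintype.card V + 1) ∧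
      ∃ f : R → WGraph V → ℝ, (∀ r, f r ∈ l' r) ∧ ∀ G ∈ 𝓖,
        3 * Fintype.card R ≤ 4 * (univ.filter fun r => ApproxVC ρ (f r) (unit G)).card := by
  rcases h with ⟨f, hf, h⟩ | ⟨c, hc, h⟩
  · exact ⟨l, hp, fun r => by omega, f, hf, fun G hG => h _ ⟨G, hG, rfl⟩⟩
  · have key : ∀ r, ∃ l' : List (WGraph V → ℝ), NProg (wInputs V) l' (κ r) ∧
        l'.length = (l r).length + (univ : Finset V).card + 1 ∧
        (fun x => (((univ : Finset V).filter fun v => 1 ≤ c r v x).card : ℝ)) ∈ l' := by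
      intro r
      obtain ⟨l', h1, -, h3, h4⟩ := exists_sum_gate_n (inp := wInputs V)
        (Or.inr (Or.inr ⟨0, rfl⟩)) (hp r) (c r) (hc r) (univ : Finset V)
      exact ⟨l', h1, h3, h4⟩
    choose l' h1 h3 h4 using key
    refine ⟨l', h1, fun r => ?_, fun r x => (((univ : Finset V).filter
      fun v => 1 ≤ c r v x).card : ℝ), h4, ?_⟩
    · rw [h3, card_univ]
    · intro G hG
      refine (h _ ⟨G, hG, rfl⟩).trans (Nat.mul_le_mul_left _ (card_le_card ?_))
      intro r hr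
      rw [mem_filter] at hr ⊢
      obtain ⟨g1, g2⟩ := hr.2
      refine ⟨mem_univ _, ⟨_, g1, ?_⟩, ?_⟩
      · simp [unit]
      · intro C hC
        have := g2 C hC
        simpa [unit] using this

/-- circuits with few layers of NOT gates that approximate the vertex cover number -/
theorem circuits (c : ℝ) (hc : c < 2) (α : ℝ) (hα : 0 ≤ α) (hα2 : α < 1 / 2) :
    ∃ N : ℕ, ∀ n : ℕ, N ≤ n → ∀ (R : Type) [Fintype R] [Nonempty R]
      (l : R → List (WGraph (Fin n ⊕ Fin n) → ℝ)) (κ : R → ℕ),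
      (∀ r, NProg (wInputs (Fin n ⊕ Fin n)) (l r) (κ r)) → (∀ r, 2 * (κ r : ℝ) ≤ (n : ℝ) ^ α) →
      RSolves c l (unit '' pmGraphs n) →
      ∃ r, (2 : ℝ) ^ ((n : ℝ) ^ ((1 - 2 * α) / 7)) ≤ (l r).length := by
  set ε : ℝ := min 1 (2 - c) with hε
  have hε0 : 0 < ε := lt_min one_pos (by linarith)
  have hε1 : ε ≤ 1 := min_le_left _ _
  have hcε : c ≤ 2 - ε := by
    have := min_le_right 1 (2 - c)
    linarith
  obtain ⟨N, hN⟩ := programs_slack (ε / 8) (by positivity) α hα hα2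
  refine ⟨max N 2, fun n hn R _ _ l κ hl hκ hs => ?_⟩
  have hnN : N ≤ n := (le_max_left _ _).trans hn
  have hn2 : 2 ≤ n := (le_max_right _ _).trans hn
  have hn0 : (2 : ℝ) ≤ n := by exact_mod_cast hn2
  obtain ⟨l', hp', hlen, f, hf, happ⟩ := value_n hl hs
  have e5 : 0 < ε * n := by positivity
  obtain ⟨r, hr⟩ := hN n hnN R (fun r => (l' r).length) (fun r => κ r * 2)
    (fun r x => decide (2 * n - ε * n / 8 ≤ f r x))
    (fun r => NProg.toTProg (fun c => Or.inr (Or.inr ⟨c, rfl⟩)) (hp' r) (hf r) _)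
    (fun r => by
      have := hκ r
      push_cast
      linarith)
    (fun G hG hC => by
      refine (happ G hG).trans (Nat.mul_le_mul_left _ (card_le_card ?_))
      intro r hr
      rw [mem_filter] at hr ⊢
      refine ⟨mem_univ _, ?_⟩
      rw [decide_eq_true_eq]
      obtain ⟨C, hC1, hC2⟩ := hr.2.1
      have e2 : ∑ v ∈ C, (unit G).w v = C.card := by simp [unit]
      rw [e2] at hC2
      have e3 := hC C hC1
      linarith)
    (fun G hG hC => by
      refine (happ G hG).trans (Nat.mul_le_mul_left _ (card_le_card ?_))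
      intro r hr
      rw [mem_filter] at hr ⊢
      refine ⟨mem_univ _, ?_⟩
      rw [decide_eq_false_iff_not, not_le]
      obtain ⟨C, hC1, hC2⟩ := hC
      have e2 : ∑ v ∈ C, (unit G).w v = C.card := by simp [unit]
      have e1 := hr.2.2 C hC1
      rw [e2] at e1
      have e4 : c * (C.card : ℝ) ≤ (2 - ε) * C.card := by gcongr
      have e6 : (2 - ε) * (C.card : ℝ) ≤ (2 - ε) * ((1 + ε / 8) * n) := by
        apply mul_le_mul_of_nonneg_left hC2
        linarith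
      nlinarith)
  refine ⟨r, ?_⟩
  have h1 := hlen r
  rw [Fintype.card_sum, Fintype.card_fin] at h1
  have h2 : ((l' r).length : ℝ) ≤ (l r).length + (n + n) + 1 := by exact_mod_cast h1
  linarith

/-- programs on all graphs and large gaps -/
theorem programs_all (η : ℝ) (hη : 0 < η) (hη2 : η ≤ 1 / 2) :
    ∃ N : ℕ, ∀ n : ℕ, N ≤ n → ∀ ρ : ℝ, 1 ≤ ρ → ∀ (R : Type) [Fintype R] [Nonempty R]
      (S m : R → ℕ) (F : R → WGraph (Fin n) → Bool),
      (∀ r, TProg (wInputs (Fin n)) [] (S r) (m r) (F r)) →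
      (∀ r, ρ * m r ≤ (n : ℝ) ^ (1 / 2 - η)) →
      (∀ G : SimpleGraph (Fin n), (∀ C : Finset (Fin n), IsCover G C →
        (1 - η) * n ≤ (C.card : ℝ)) →
        3 * Fintype.card R ≤ 4 * (univ.filter fun r => F r (unit G) = true).card) →
      (∀ G : SimpleGraph (Fin n), (∃ C : Finset (Fin n), IsCover G C ∧
        ρ * (C.card : ℝ) ≤ η * n) →
        3 * Fintype.card R ≤ 4 * (univ.filter fun r => F r (unit G) = false).card) →
      ∃ r, (2 : ℝ) ^ ((n : ℝ) ^ (η / 4)) ≤ S r := by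
  obtain ⟨N, hN⟩ := asymp_params2 (16 * 10 ^ 5 * (1 / η * (1 / η))) (1 / 2 - η) (η / 4) (η / 4)
    (by positivity) (by positivity) (by positivity) (by linarith)
  refine ⟨N, fun n hn ρ hρ R _ _ S m F hp hP hyes hno => ?_⟩
  obtain ⟨hn2, L, hL, hY, hsz⟩ := hN n hn
  by_contra hlt
  push Not at hlt
  have hρ0 : 0 < ρ := by linarith
  have hn1 : (1 : ℝ) ≤ n := by
    have : 1 ≤ n := by omega
    exact_mod_cast this
  set P : ℕ := ⌊(n : ℝ) ^ (1 / 2 - η) / ρ⌋₊ with hPdef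
  have hcomb : ∀ r, m r ≤ P := by
    intro r
    apply Nat.le_floor
    rw [le_div_iff₀ hρ0]
    have := hP r
    linarith
  have hP1 : 1 ≤ P := by
    obtain ⟨r⟩ := ‹Nonempty R›
    obtain ⟨lf, h1, -, -⟩ := frozen (inp := wInputs (Fin n))
      (fun c => Or.inr (Or.inr ⟨c, rfl⟩)) (hp r) Prog.nil
    have := h1 (unit ⊥)
    exact (Nat.one_le_of_lt this).trans (hcomb r)
  have hPle : ρ * (P : ℝ) ≤ (n : ℝ) ^ (1 / 2 - η) := by
    have h1 : (P : ℝ) ≤ (n : ℝ) ^ (1 / 2 - η) / ρ := Nat.floor_le (by positivity)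
    rw [le_div_iff₀ hρ0] at h1
    linarith
  have hσ : (1 : ℝ) ≤ 1 / η := by
    rw [le_div_iff₀ hη]; linarith
  have hτ : (1 : ℝ) ≤ ρ * (1 / η) := by nlinarith
  have hmn : ∀ r, m r ≤ n := by
    intro r
    have h1 : (m r : ℝ) ≤ (n : ℝ) := by
      calc (m r : ℝ) ≤ ρ * m r := by
            have : (0 : ℝ) ≤ m r := by positivity
            nlinarith
        _ ≤ (n : ℝ) ^ (1 / 2 - η) := hP r
        _ ≤ (n : ℝ) ^ (1 : ℝ) := Real.rpow_le_rpow_of_exponent_le hn1 (by linarith)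
        _ = n := Real.rpow_one _
    exact_mod_cast h1
  refine engine2_t n L P (1 / η) (ρ * (1 / η)) hL hP1 hσ hτ ?_ S m
    (fun r H => F r (unit H))
    (fun r => tprog_comp (fun H : SimpleGraph (Fin n) => unit H) _ _ unit_inputs
      (hp r)) hcomb ?_ ?_ ?_
  · calc 16 * 10 ^ 5 * (1 / η * (ρ * (1 / η))) * (L : ℝ) ^ 3 * ((Nat.log 2 n : ℝ) + 1) * P
        = 16 * 10 ^ 5 * (1 / η * (1 / η)) * (L : ℝ) ^ 3 * ((Nat.log 2 n : ℝ) + 1) * (ρ * P) := by
          ring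
      _ ≤ _ := hY _ (by positivity) hPle
  · intro r
    have h2 := hsz _ (hlt r)
    have h3 := hmn r
    omega
  · intro G A β hA hG
    refine hyes _ ?_
    intro C hC
    have hCn := card_cover_classGraph β C (fun u v huv => hC u v (hG huv))
    rw [Fintype.card_fin] at hCn
    have e1 : (n : ℝ) ≤ C.card + (A : ℝ) := by exact_mod_cast hCn
    have e3 : (A : ℝ) ≤ η * n / 8 := by
      calc (A : ℝ) ≤ n / (8 * (1 / η)) := hA
        _ = η * n / 8 := by field_simp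
    have e6 : 0 < η * n := by positivity
    linarith
  · intro T hT
    have e3 : ρ * (T.card : ℝ) ≤ η * n / 4 := by
      calc ρ * (T.card : ℝ) ≤ ρ * (n / (4 * (ρ * (1 / η)))) := by gcongr
        _ = η * n / 4 := by field_simp
    have e6 : 0 < η * n := by positivity
    have h1 := hno (touchGraph T) ⟨T, isCover_touchGraph T, by linarith⟩
    exact quarter_of_three h1 (fun r hr => by rw [hr]; exact Bool.false_ne_true)

end Pool.Agent.N631.FV
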