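import Pool.Agent.N631.FT.Step

/-!
# Programs with tests frozen at an instance (helper631)
-/

open scoped Classical
open Finset

namespace Pool.Agent.N631.FV

open H630VC (Prog Mono2)
open Pool.Agent.N631.FT

/-- gates that tell whether some comparison has a positive result -/
theorem or_gates {I : Type} {inp : Set (I → ℝ)} {l : List (I → ℝ)} (hl : Prog inp l)
    {D : I → ℝ} (hD : D ∈ l) {w : ℕ} (f : Fin w → I → ℝ) (θ : Fin w → ℝ) (hf : ∀ i, f i ∈ l)
    (J : Finset (Fin w)) :
    ∃ (l' : List (I → ℝ)) (D' : I → ℝ), Prog inp l' ∧ D' ∈ l' ∧ (∀ g ∈ l, g ∈ l') ∧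
      l'.length = l.length + J.card ∧ ∀ x, 1 ≤ D' x ↔ 1 ≤ D x ∨ ∃ i ∈ J, θ i ≤ f i x := by
  induction J using Finset.induction_on with
  | empty =>
    exact ⟨l, D, hl, hD, fun g hg => hg, by simp, fun x => by simp⟩
  | insert j J hj ih =>
    obtain ⟨l', D', h1, h2, h3, h4, h5⟩ := ih
    have hφ : Mono2 fun a b : ℝ => if θ j ≤ b then max a 1 else a := by
      intro a a' b b' ha hb
      show (if θ j ≤ b then max a 1 else a) ≤ if θ j ≤ b' then max a' 1 else a'
      by_cases e1 : θ j ≤ b
      · rw [if_pos e1, if_pos (e1.trans hb)]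
        exact max_le_max ha le_rfl
      · rw [if_neg e1]
        by_cases e2 : θ j ≤ b'
        · rw [if_pos e2]
          exact ha.trans (le_max_left _ _)
        · rw [if_neg e2]
          exact ha
    refine ⟨_, _, Prog.gate h1 hφ h2 (h3 _ (hf j)), List.mem_cons_self,
      fun g hg => List.mem_cons_of_mem _ (h3 g hg), ?_, ?_⟩
    · rw [List.length_cons, h4, card_insert_of_notMem hj]
      omega
    · intro x
      show (1 ≤ if θ j ≤ f j x then max (D' x) 1 else D' x) ↔ _
      by_cases e1 : θ j ≤ f j x
      · rw [if_pos e1]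
        constructor
        · intro _
          exact Or.inr ⟨j, mem_insert_self _ _, e1⟩
        · intro _
          exact le_max_right _ _
      · rw [if_neg e1, h5]
        constructor
        · rintro (h | ⟨i, hi, h⟩)
          · exact Or.inl h
          · exact Or.inr ⟨i, mem_insert_of_mem hi, h⟩
        · rintro (h | ⟨i, hi, h⟩)
          · exact Or.inl h
          · rcases mem_insert.1 hi with rfl | hi
            · exact absurd h e1
            · exact Or.inr ⟨i, hi, h⟩

/-- for every instance `i0` there is a circuit of monotone gates which tells for the larger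
instances whether they belong to another phase than `i0` -/
theorem frozen {I : Type} {inp : Set (I → ℝ)} (hc : ∀ c : ℝ, (fun _ : I => c) ∈ inp)
    {l : List (I → ℝ)} {s m : ℕ} {F : I → Bool} (h : TProg inp l s m F) (hl : Prog inp l) :
    ∃ lf : I → ℕ, (∀ x, lf x < m) ∧
      (∀ x x', (∀ g ∈ inp, g x ≤ g x') → lf x ≤ lf x' ∧ (lf x' = lf x → F x' = F x)) ∧
      ∀ i0 : I, ∃ (l' : List (I → ℝ)) (D : I → ℝ), Prog inp l' ∧ D ∈ l' ∧ (∀ g ∈ l, g ∈ l') ∧
        l'.length ≤ l.length + s + m ∧
        ∀ x, (∀ g ∈ inp, g i0 ≤ g x) → (1 ≤ D x ↔ lf x ≠ lf i0) := by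
  induction h with
  | @answer l b =>
    refine ⟨fun _ => 0, fun _ => Nat.one_pos, fun _ _ _ => ⟨le_rfl, fun _ => rfl⟩, fun i0 => ?_⟩
    refine ⟨(fun _ => (0 : ℝ)) :: l, fun _ => 0, Prog.input hl (hc 0), List.mem_cons_self,
      fun g hg => List.mem_cons_of_mem _ hg, by simp, fun x _ => ?_⟩
    constructor
    · intro h
      norm_num at h
    · intro h
      exact absurd rfl h
  | @input l f s m F hf _ ih =>
    obtain ⟨lf, h2, h3, h4⟩ := ih (Prog.input hl hf)
    refine ⟨lf, h2, h3, fun i0 => ?_⟩
    obtain ⟨l', D, g1, g2, g3, g4, g5⟩ := h4 i0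
    refine ⟨l', D, g1, g2, fun g hg => g3 g (List.mem_cons_of_mem _ hg), ?_, g5⟩
    rw [List.length_cons] at g4
    omega
  | @gate l φ f g s m F hφ hf hg _ ih =>
    obtain ⟨lf, h2, h3, h4⟩ := ih (Prog.gate hl hφ hf hg)
    refine ⟨lf, h2, h3, fun i0 => ?_⟩
    obtain ⟨l', D, g1, g2, g3, g4, g5⟩ := h4 i0
    refine ⟨l', D, g1, g2, fun g hg => g3 g (List.mem_cons_of_mem _ hg), ?_, g5⟩
    rw [List.length_cons] at g4
    omega
  | @tests l w f θ t s r F hf hr ht _ ih =>
    choose lf' a2 a3 a4 using fun b => ih b hl
    set lf : I → ℕ := fun x => ∑ i ∈ range (rank (bits f θ x)), r i + lf' (bits f θ x) x with hlf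
    have hlt : ∀ x x', (∀ g ∈ inp, g x ≤ g x') → bits f θ x ≠ bits f θ x' → lf x < lf x' := by
      intro x x' hx hne
      have h1 := rank_lt (fun i => bits_mono hl hf hx i) hne
      calc lf x < ∑ i ∈ range (rank (bits f θ x)), r i + r (rank (bits f θ x)) :=
            Nat.add_lt_add_left (a2 _ x) _
        _ = ∑ i ∈ range (rank (bits f θ x) + 1), r i := (sum_range_succ _ _).symm
        _ ≤ ∑ i ∈ range (rank (bits f θ x')), r i :=
            sum_le_sum_of_subset (range_subset_range.2 h1)
        _ ≤ lf x' := Nat.le_add_right _ _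
    have heq : ∀ x x', bits f θ x' = bits f θ x →
        lf x' = ∑ i ∈ range (rank (bits f θ x)), r i + lf' (bits f θ x) x' := by
      intro x x' hxx
      rw [hlf]
      show ∑ i ∈ range (rank (bits f θ x')), r i + lf' (bits f θ x') x' = _
      rw [hxx]
    refine ⟨lf, ?_, ?_, ?_⟩
    · intro x
      have h1 := rank_le (bits f θ x)
      calc lf x < ∑ i ∈ range (rank (bits f θ x)), r i + r (rank (bits f θ x)) :=
            Nat.add_lt_add_left (a2 _ x) _
        _ = ∑ i ∈ range (rank (bits f θ x) + 1), r i := (sum_range_succ _ _).symm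
        _ ≤ ∑ i ∈ range (w + 1), r i :=
            sum_le_sum_of_subset (range_subset_range.2 (by omega))
    · intro x x' hx
      by_cases hb : bits f θ x = bits f θ x'
      · have e1 := heq x x' hb.symm
        have e2 := heq x x rfl
        have e3 := a3 (bits f θ x) x x' hx
        rw [e1, e2]
        refine ⟨Nat.add_le_add_left e3.1 _, fun he => ?_⟩
        show F (bits f θ x') x' = F (bits f θ x) x
        rw [← hb]
        exact e3.2 (by omega)
      · have h1 := hlt x x' hx hb
        exact ⟨h1.le, fun he => absurd he (ne_of_gt h1)⟩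
    · intro i0
      have hsum := sum_ge r hr (rank (bits f θ i0)) (rank_le _)
      obtain ⟨l1, D1, g1, g2, g3, g4, g5⟩ := a4 (bits f θ i0) i0
      obtain ⟨l2, D2, k1, k2, k3, k4, k5⟩ := or_gates g1 g2 f θ (fun i => g3 _ (hf i))
        (univ.filter fun i => bits f θ i0 i = false)
      refine ⟨l2, D2, k1, k2, fun g hg => k3 g (g3 g hg), ?_, ?_⟩
      · have e1 : (univ.filter fun i => bits f θ i0 i = false).card ≤ w :=
          (card_le_univ _).trans (by rw [Fintype.card_fin])
        have e2 := ht (bits f θ i0)
        omega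
      · intro x hx
        rw [k5 x]
        have hbits : (∃ i ∈ univ.filter (fun i => bits f θ i0 i = false), θ i ≤ f i x) ↔
            bits f θ x ≠ bits f θ i0 := by
          constructor
          · rintro ⟨i, hi, h⟩ he
            have h1 := congrFun he i
            rw [(mem_filter.1 hi).2] at h1
            unfold bits at h1
            rw [decide_eq_true h] at h1
            exact Bool.false_ne_true h1.symm
          · intro hne
            by_contra hcon
            push Not at hcon
            apply hne
            funext i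
            by_cases hi : bits f θ i0 i = true
            · rw [hi]
              exact bits_mono hl hf hx i hi
            · have hi' := Bool.eq_false_of_not_eq_true hi
              rw [hi']
              have h1 := hcon i (mem_filter.2 ⟨mem_univ _, hi'⟩)
              unfold bits
              exact decide_eq_false (not_le.2 h1)
        rw [hbits]
        by_cases hb : bits f θ x = bits f θ i0
        · have e1 := heq i0 x hb
          have e2 := heq i0 i0 rfl
          rw [g5 x hx]
          constructor
          · rintro (h | h)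
            · omega
            · exact absurd hb h
          · intro h
            left
            omega
        · constructor
          · intro _
            exact ne_of_gt (hlt i0 x hx (Ne.symm hb))
          · intro _
            exact Or.inr hb

end Pool.Agent.N631.FV
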